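import Pool.Agent.Lib.MP_ec4eff_co.R5.End
import Pool.Agent.Lib.MP_ec4eff_co.R5.Four
import Pool.Agent.Lib.MP_ec4eff_co.Six
import Pool.Agent.Lib.MP_ec4eff_co.Seven
import Pool.Agent.Lib.MP_ec4eff_co.Eight

/-! Geometric configurations of points and lines in the real projective plane with four lines
through every point and five points on every line: the numbers `r` with `4 ≤ r ≤ 8` for which a
configuration `((5r)_4, (4r)_5)` exists are `6`, `7` and `8`. -/

namespace Pool.Agent.Results.MP_ec4eff_co.Full

open scoped LinearAlgebra.Projectivization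

/-- The points of the real projective plane. -/
abbrev Pt : Type := ℙ ℝ (Fin 3 → ℝ)

/-- The lines of the real projective plane: the planes through the origin of the
three-dimensional space. -/
abbrev Ln : Type := {W : Submodule ℝ (Fin 3 → ℝ) // Module.finrank ℝ W = 2}

/-- The point `p` lies on the line `l`. -/
def Inc (p : Pt) (l : Ln) : Prop := p.submodule ≤ l.1

/-- `P` and `L` form a geometric configuration `((5r)_4, (4r)_5)`. -/
def IsConfig (r : ℕ) (P : Set Pt) (L : Set Ln) : Prop :=
  P.Finite ∧ L.Finite ∧ P.ncard = 5 * r ∧ L.ncard = 4 * r ∧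
    (∀ p ∈ P, {l | l ∈ L ∧ Inc p l}.ncard = 4) ∧ ∀ l ∈ L, {p | p ∈ P ∧ Inc p l}.ncard = 5

/-- For `4 ≤ r ≤ 8` there is a geometric configuration `((5r)_4, (4r)_5)` if and only if `r` is
`6`, `7` or `8`. -/
theorem result : ∀ r : ℕ, 4 ≤ r → r ≤ 8 →
    ((∃ (P : Set Pt) (L : Set Ln), IsConfig r P L) ↔ r = 6 ∨ r = 7 ∨ r = 8) := by
  intro r h4 h8
  constructor
  · intro h
    rcases Nat.lt_or_ge r 5 with h5 | h5
    · have hr : r = 4 := by omega
      subst hr
      exact absurd h EC4.no_four
    · rcases Nat.lt_or_ge r 6 with h6 | h6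
      · have hr : r = 5 := by omega
        subst hr
        exact absurd h EC4.no_five
      · omega
  · rintro (rfl | rfl | rfl)
    · exact Lib.MP_ec4eff_co.Six.exists_config
    · exact Lib.MP_ec4eff_co.Seven.exists_config
    · exact Lib.MP_ec4eff_co.Eight.exists_config

end Pool.Agent.Results.MP_ec4eff_co.Full
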